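import Mathlib
import Pool.Agent.H8.DualDiamEnd

set_option autoImplicit false

namespace Pool.Agent.Results.MP_24d225_co.Disproof

open Pool.H8.DualDiam

/-- For every `n ≥ 3` there is a connected simple topological graph with `n` edges (and `n + 1` vertices)
for which the dual of the planarization has two faces at distance at least `n - 3`. Consequently no
constant `c < 1` satisfies `diam (D(G')) ≤ c |E(G)|` for all (connected) simple topological graphs. -/
theorem result :
    (∀ n : ℕ, 3 ≤ n → ∃ (V E : Type) (_ : Fintype V) (_ : Fintype E) (G : SimpleTopGraph V E),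
      Fintype.card E = n ∧ Fintype.card V = n + 1 ∧ G.graph.Connected ∧
      ∃ A B : G.Face, n - 3 ≤ G.dual.dist A B) ∧
    ¬ ∃ c : ℝ, c < 1 ∧ ∀ (V E : Type) [Fintype V] [Fintype E] (G : SimpleTopGraph V E),
      G.graph.Connected → ∀ A B : G.Face, (G.dual.dist A B : ℝ) ≤ c * Fintype.card E := by
  have h1 : ∀ n : ℕ, 3 ≤ n → ∃ (V E : Type) (_ : Fintype V) (_ : Fintype E)
      (G : SimpleTopGraph V E), Fintype.card E = n ∧ Fintype.card V = n + 1 ∧ G.graph.Connected ∧
      ∃ A B : G.Face, n - 3 ≤ G.dual.dist A B := by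
    intro n hn
    obtain ⟨m, rfl⟩ : ∃ m, n = m + 1 := ⟨n - 1, by omega⟩
    refine ⟨Fin (m + 2), Option (Fin m), inferInstance, inferInstance, G m, by simp, by simp,
      connected_G, face m 1 le_rfl, face m (m - 1) (by omega), ?_⟩
    have := dist_face (m := m) (by omega)
    omega
  refine ⟨h1, ?_⟩
  rintro ⟨c, hc, h⟩
  obtain ⟨n, hn⟩ := exists_nat_gt (3 / (1 - c))
  obtain ⟨V, E, i1, i2, G, hE, -, hG, A, B, hAB⟩ := h1 (max n 3) (le_max_right _ _)
  have h2 := h V E G hG A B
  have h3 : (n : ℝ) ≤ (max n 3 : ℕ) := by exact_mod_cast le_max_left _ _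
  have h4 : 3 / (1 - c) < (max n 3 : ℕ) := hn.trans_le h3
  rw [div_lt_iff₀ (by linarith)] at h4
  have h5 : max n 3 ≤ G.dual.dist A B + 3 := by omega
  have h6 : ((max n 3 : ℕ) : ℝ) ≤ (G.dual.dist A B : ℝ) + 3 := by exact_mod_cast h5
  rw [hE] at h2
  linarith

end Pool.Agent.Results.MP_24d225_co.Disproof
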